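import Pool.Agent.Helper75.PY.Stmts2

set_option autoImplicit false

universe u

open Module

namespace Pool.Agent.Helper27.PY

open Pool.Agent.Helper75.PX Pool.Agent.Helper75.PY

/-- row PS2: the parameter may be squared, characteristic two -/
theorem st_PS2 : Pool.Agent.Helper75.PY.ST_PS2.{u} := by
  intro K A _ _ _ y u t c h2 h
  have h2s : ∀ x : A, (2 : K) • x = 0 := fun x => by rw [h2, zero_smul]
  have h2A : (2 : A) = 0 := by
    have e := h2s 1
    rwa [Algebra.smul_def, mul_one, map_ofNat] at e
  have hy := h.hy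
  have huy := h.huy
  rw [h2A, sub_zero] at huy
  refine ⟨?_, ?_, h.hu, h.c0⟩
  · have e1 : y * y * (y * y) * (y * y) = (y * y * y) * (y * y * y) := by
      simp only [mul_assoc]
    have e2 : (t • (y * y) + (t + 3) • y + 1) * (t • (y * y) + (t + 3) • y + 1) =
        (t ^ 2 • (y * y * (y * y)) + (t ^ 2 + 3) • (y * y) + 1) +
          (2 : K) • ((t * (t + 3)) • (y * y * y) + (4 * t + 3) • (y * y) + (t + 3) • y) := by
      simp only [mul_add, add_mul, smul_mul_assoc, mul_smul_comm, mul_one, one_mul, ← mul_assoc]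
      module
    rw [e1, hy, e2, h2s, add_zero]
  · rw [h2A, sub_zero]
    have e1 : u * (y * y) = ((y * y - (t + 1) • y) * (y * y - (t + 1) • y)) * u := by
      rw [← mul_assoc, huy, mul_assoc, huy, ← mul_assoc]
    have e2 : (y * y - (t + 1) • y) * (y * y - (t + 1) • y) =
        (y * y * (y * y) - (t ^ 2 + 1) • (y * y)) +
          (2 : K) • (-((t + 1) • (y * y * y)) + (t ^ 2 + t + 1) • (y * y)) := by
      simp only [mul_sub, sub_mul, smul_mul_assoc, mul_smul_comm, ← mul_assoc]
      module
    rw [e1, e2, h2s, add_zero]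

end Pool.Agent.Helper27.PY
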